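import Pool.Agent.H445Z.CubSt

set_option autoImplicit false

/-! Stopping-set decomposition: the chain estimate. -/

namespace Pool.Agent.H575Z.Stop

open Finset Pool.Agent.H445Z.Cub

noncomputable section

section Basic
variable {ι Ω : Type} [Fintype Ω] (Φ : Filt ι Ω)

theorem E_mono (t : ι → ℕ) {f g : Ω → ℝ} (h : ∀ x, f x ≤ g x) (x : Ω) :
    Φ.E t f x ≤ Φ.E t g x := by
  have := Φ.pos t (g - f) (fun x => by simpa using h x) x
  rw [map_sub] at this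
  simpa using this

theorem E_smul (t : ι → ℕ) (a : ℝ) (f : Ω → ℝ) (x : Ω) :
    Φ.E t (fun w => a * f w) x = a * Φ.E t f x := by
  have : (fun w => a * f w) = a • f := by ext; simp
  rw [this, map_smul]; simp

theorem E_const (t : ι → ℕ) (a : ℝ) (x : Ω) : Φ.E t (fun _ => a) x = a := by
  have := E_smul Φ t a (fun _ => 1) x
  simpa [Φ.one] using this

theorem E_of_meas (t : ι → ℕ) {f : Ω → ℝ} (hf : Φ.Meas t f) : Φ.E t f = f := by
  funext x
  have := Φ.mul t f (fun _ => 1) hf x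
  simpa [Φ.one] using this

theorem E_sum {α : Type} (t : ι → ℕ) (T : Finset α) (f : α → Ω → ℝ) (x : Ω) :
    Φ.E t (fun w => ∑ a ∈ T, f a w) x = ∑ a ∈ T, Φ.E t (f a) x := by
  have : (fun w => ∑ a ∈ T, f a w) = ∑ a ∈ T, f a := by ext; simp
  rw [this, map_sum]; simp

theorem meas_mono {t t' : ι → ℕ} (h : t ≤ t') {f : Ω → ℝ} (hf : Φ.Meas t f) : Φ.Meas t' f :=
  fun x y hxy => hf x y (Φ.anti t t' h x y hxy)

theorem meas_E (t : ι → ℕ) (f : Ω → ℝ) : Φ.Meas t (Φ.E t f) := fun x y h => Φ.meas t f x y h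

theorem LL_mono (c : ℕ) : Monotone (LL c) := by
  intro a b hab
  unfold LL
  split_ifs with h1 h2 h2
  · exact le_rfl
  · exact Nat.zero_le _
  · omega
  · exact Nat.mul_le_mul_left _ (Nat.pow_le_pow_right (by norm_num) hab)

theorem lam_anti (c : ℕ) (s : ι → ℕ) {y y' : ι → ℕ} (h : y ≤ y') : lam c s y' ≤ lam c s y :=
  fun e => Nat.sub_le_sub_left (LL_mono c (h e)) _

theorem lam_sup (c : ℕ) (s a b : ι → ℕ) : lam c s (a ⊔ b) = lam c s a ⊓ lam c s b := by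
  funext e
  simp only [lam, Pi.sup_apply, Pi.inf_apply]
  rcases le_total (a e) (b e) with h | h
  · have := LL_mono c h
    rw [sup_eq_right.2 h]; omega
  · have := LL_mono c h
    rw [sup_eq_left.2 h]; omega

theorem E_lam_meas (c : ℕ) (s m N : ι → ℕ) {f : Ω → ℝ} (hf : Φ.Meas (lam c s N) f) :
    Φ.E (lam c s m) f = Φ.E (lam c s (N ⊔ m)) f := by
  conv_lhs => rw [← E_of_meas Φ _ hf]
  rw [Φ.comp, lam_sup, inf_comm]

end Basic

section Chain
variable {ι Ω W : Type} [Fintype Ω] (Φ : Filt ι Ω) (c : ℕ) (s : ι → ℕ) (U : Ω → ℝ)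

/-- density of `U` in the cell coarsened by `N` -/
def den (N : ι → ℕ) : Ω → ℝ := Φ.E (lam c s N) U

open Classical in
/-- one step of a chain -/
def stepA (τ : (ι → ℕ) → ℝ) (m N : ι → ℕ) (z : Ω) : ℝ :=
  if τ N ≤ den Φ c s U N z ∧ den Φ c s U (N ⊔ m) z < τ (N ⊔ m) then 1 else 0

/-- product of the steps of a chain -/
def prodA (τ : (ι → ℕ) → ℝ) : (ι → ℕ) → List (ι → ℕ) → Ω → ℝ
  | _, [], _ => 1
  | m, N :: l, z => stepA Φ c s U τ m N z * prodA τ (m ⊓ N) l z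

/-- end point of a chain -/
def mEnd : (ι → ℕ) → List (ι → ℕ) → (ι → ℕ)
  | m, [] => m
  | m, N :: l => mEnd (m ⊓ N) l

/-- the suprema met along a chain -/
def sups : (ι → ℕ) → List (ι → ℕ) → List (ι → ℕ)
  | _, [] => []
  | m, N :: l => (N ⊔ m) :: sups (m ⊓ N) l

/-- normalised conditional expectation of a chain -/
def VV (τ : (ι → ℕ) → ℝ) (m : ι → ℕ) (l : List (ι → ℕ)) (z : Ω) : ℝ :=
  Φ.E (lam c s m) (prodA Φ c s U τ m l) z * τ (mEnd m l) / τ m

/-- truncated identity -/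
def gg (t : ℝ) : ℝ := if t < 1 then t else 0

theorem sups_coord (e : ι) : ∀ (l : List (ι → ℕ)) (m : ι → ℕ),
    (∀ N ∈ l, N e ≠ mEnd m l e → ∃ M ∈ sups m l, M e = N e) ∧
      (m e ≠ mEnd m l e → ∃ M ∈ sups m l, M e = m e)
  | [], m => by simp [mEnd]
  | N :: l, m => by
    obtain ⟨h1, h2⟩ := sups_coord e l (m ⊓ N)
    have key : ∀ a : ℕ, a = m e ∨ a = N e → a ≠ mEnd (m ⊓ N) l e →
        ∃ M ∈ sups m (N :: l), M e = a := by
      intro a ha hne
      by_cases hm : a = (N ⊔ m) e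
      · exact ⟨N ⊔ m, by simp [sups], hm.symm⟩
      · have hmin : a = (m ⊓ N) e := by
          simp only [Pi.sup_apply, Pi.inf_apply] at hm ⊢
          omega
        obtain ⟨M, hM, hMe⟩ := h2 (hmin ▸ hne)
        exact ⟨M, by simp [sups, hM], hMe.trans hmin.symm⟩
    refine ⟨fun N' hN' hne => ?_, fun hne => key _ (Or.inl rfl) hne⟩
    rcases List.mem_cons.1 hN' with rfl | hN'
    · exact key _ (Or.inr rfl) hne
    · obtain ⟨M, hM, hMe⟩ := h1 N' hN' hne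
      exact ⟨M, by simp [sups, hM], hMe⟩

theorem stepA_nonneg (τ : (ι → ℕ) → ℝ) (m N : ι → ℕ) (z : Ω) : 0 ≤ stepA Φ c s U τ m N z := by
  unfold stepA; split_ifs <;> norm_num

theorem prodA_nonneg (τ : (ι → ℕ) → ℝ) : ∀ (l : List (ι → ℕ)) (m : ι → ℕ) (z : Ω),
    0 ≤ prodA Φ c s U τ m l z
  | [], _, _ => by simp [prodA]
  | N :: l, m, z => mul_nonneg (stepA_nonneg Φ c s U τ m N z) (prodA_nonneg τ l _ z)

theorem den_meas (N : ι → ℕ) : Φ.Meas (lam c s N) (den Φ c s U N) := meas_E Φ _ _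

theorem stepA_meas (τ : (ι → ℕ) → ℝ) (m N : ι → ℕ) :
    Φ.Meas (lam c s N) (stepA Φ c s U τ m N) := by
  intro x y h
  have h1 := den_meas Φ c s U N x y h
  have h2 := meas_mono Φ (lam_anti c s (le_sup_left : N ≤ N ⊔ m)) (den_meas Φ c s U (N ⊔ m)) x y h
  simp only [stepA, h1, h2]

theorem E_den (m N : ι → ℕ) : Φ.E (lam c s (N ⊔ m)) (den Φ c s U N) = den Φ c s U (N ⊔ m) := by
  unfold den
  rw [Φ.comp, inf_eq_left.2 (lam_anti c s le_sup_left)]

variable {U}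

theorem den_nonneg (hU : ∀ z, 0 ≤ U z) (N : ι → ℕ) (z : Ω) : 0 ≤ den Φ c s U N z :=
  Φ.pos _ _ hU z

variable {τ : (ι → ℕ) → ℝ}

theorem VV_nonneg (hτ : ∀ N, 0 < τ N) (m : ι → ℕ) (l : List (ι → ℕ)) (z : Ω) :
    0 ≤ VV Φ c s U τ m l z :=
  div_nonneg (mul_nonneg (Φ.pos _ _ (prodA_nonneg Φ c s U τ l m) z) (hτ _).le) (hτ _).le

theorem VV_cons (hτ : ∀ N, 0 < τ N) (hmul : ∀ a b, τ (a ⊔ b) * τ (b ⊓ a) = τ a * τ b)
    (m N : ι → ℕ) (l : List (ι → ℕ)) (z : Ω) :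
    VV Φ c s U τ m (N :: l) z = Φ.E (lam c s m) (fun w =>
      stepA Φ c s U τ m N w * (τ N / τ (N ⊔ m)) * VV Φ c s U τ (m ⊓ N) l w) z := by
  have hle : lam c s m ≤ lam c s (m ⊓ N) := lam_anti c s inf_le_left
  have hA : Φ.Meas (lam c s (m ⊓ N)) (stepA Φ c s U τ m N) :=
    meas_mono Φ (lam_anti c s inf_le_right) (stepA_meas Φ c s U τ m N)
  have h1 : Φ.E (lam c s m) (prodA Φ c s U τ m (N :: l)) =
      Φ.E (lam c s m) (fun w => stepA Φ c s U τ m N w *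
        Φ.E (lam c s (m ⊓ N)) (prodA Φ c s U τ (m ⊓ N) l) w) := by
    have e1 : Φ.E (lam c s m) (prodA Φ c s U τ m (N :: l)) =
        Φ.E (lam c s m) (Φ.E (lam c s (m ⊓ N)) (prodA Φ c s U τ m (N :: l))) := by
      rw [Φ.comp, inf_eq_left.2 hle]
    rw [e1]
    congr 1
    funext w
    exact Φ.mul _ _ _ hA w
  have h2 : (fun w => stepA Φ c s U τ m N w * (τ N / τ (N ⊔ m)) * VV Φ c s U τ (m ⊓ N) l w) =
      fun w => (τ (mEnd (m ⊓ N) l) / τ m) * (stepA Φ c s U τ m N w *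
        Φ.E (lam c s (m ⊓ N)) (prodA Φ c s U τ (m ⊓ N) l) w) := by
    funext w
    have hm := hmul N m
    have a1 := hτ m
    have a2 := hτ (N ⊔ m)
    have a3 := hτ (m ⊓ N)
    have e : τ N = τ (N ⊔ m) * τ (m ⊓ N) / τ m := by
      rw [hm]; field_simp
    unfold VV
    rw [e]
    field_simp
  rw [h2, E_smul]
  unfold VV
  rw [h1]
  simp only [mEnd]
  ring

theorem step_le_kap (hU : ∀ z, 0 ≤ U z) (hτ : ∀ N, 0 < τ N) (m N : ι → ℕ) (w : Ω) :
    stepA Φ c s U τ m N w * (τ N / τ (N ⊔ m)) ≤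
      den Φ c s U N w / den Φ c s U (N ⊔ m) w := by
  have h0 := den_nonneg Φ c s hU N w
  have h0' := den_nonneg Φ c s hU (N ⊔ m) w
  unfold stepA
  split_ifs with h
  · obtain ⟨h1, h2⟩ := h
    have hpos : 0 < den Φ c s U (N ⊔ m) w := by
      rcases h0'.lt_or_eq with h3 | h3
      · exact h3
      · exfalso
        have := Φ.diag (lam c s (N ⊔ m)) (den Φ c s U N) (den_nonneg Φ c s hU N) w
          (by rw [E_den]; exact h3.symm)
        have := hτ N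
        linarith
    rw [one_mul]
    exact div_le_div₀ h0 h1 hpos h2.le
  · rw [zero_mul]; exact div_nonneg h0 h0'

theorem E_kap_le (m N : ι → ℕ) (z : Ω) :
    Φ.E (lam c s m) (fun w => den Φ c s U N w / den Φ c s U (N ⊔ m) w) z ≤ 1 := by
  have hm' : Φ.Meas (lam c s (N ⊔ m)) (fun w => (den Φ c s U (N ⊔ m) w)⁻¹) := by
    intro x y h
    simp only [den_meas Φ c s U (N ⊔ m) x y h]
  have hm : Φ.Meas (lam c s N) (fun w => den Φ c s U N w / den Φ c s U (N ⊔ m) w) := by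
    intro x y h
    have h1 := den_meas Φ c s U N x y h
    have h2 := meas_mono Φ (lam_anti c s (le_sup_left : N ≤ N ⊔ m))
      (den_meas Φ c s U (N ⊔ m)) x y h
    simp only [h1, h2]
  rw [E_lam_meas Φ c s m N hm]
  have e : (fun w => den Φ c s U N w / den Φ c s U (N ⊔ m) w) =
      fun w => (den Φ c s U (N ⊔ m) w)⁻¹ * den Φ c s U N w := by
    funext w; rw [div_eq_inv_mul]
  rw [e, Φ.mul _ _ _ hm', E_den]
  exact inv_mul_le_one

theorem VV_le_one (hU : ∀ z, 0 ≤ U z) (hτ : ∀ N, 0 < τ N)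
    (hmul : ∀ a b, τ (a ⊔ b) * τ (b ⊓ a) = τ a * τ b) :
    ∀ (l : List (ι → ℕ)) (m : ι → ℕ) (z : Ω), VV Φ c s U τ m l z ≤ 1
  | [], m, z => by
    have e : prodA Φ c s U τ m [] = fun _ => 1 := by funext w; simp [prodA]
    unfold VV
    rw [e, Φ.one, one_mul]
    exact (div_self (hτ m).ne').le
  | N :: l, m, z => by
    rw [VV_cons Φ c s hτ hmul]
    refine le_trans (E_mono Φ _ (fun w => ?_) z) (E_kap_le Φ c s (U := U) m N z)
    have h1 := step_le_kap Φ c s hU hτ m N w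
    have h2 := VV_le_one hU hτ hmul l (m ⊓ N) w
    have h3 : 0 ≤ stepA Φ c s U τ m N w * (τ N / τ (N ⊔ m)) :=
      mul_nonneg (stepA_nonneg Φ c s U τ m N w) (div_nonneg (hτ _).le (hτ _).le)
    exact (mul_le_of_le_one_right h3 h2).trans h1

theorem VV_le_gg (hU : ∀ z, 0 ≤ U z) (hτ : ∀ N, 0 < τ N)
    (hmul : ∀ a b, τ (a ⊔ b) * τ (b ⊓ a) = τ a * τ b) (m N : ι → ℕ) (l : List (ι → ℕ)) (z : Ω) :
    VV Φ c s U τ m (N :: l) z ≤ gg (den Φ c s U (N ⊔ m) z / τ (N ⊔ m)) := by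
  classical
  let k : Ω → ℝ := fun w => if den Φ c s U (N ⊔ m) w < τ (N ⊔ m) then (τ (N ⊔ m))⁻¹ else 0
  have hk : Φ.Meas (lam c s (N ⊔ m)) k := by
    intro x y h
    simp only [k, den_meas Φ c s U (N ⊔ m) x y h]
  have hm : Φ.Meas (lam c s N) (fun w => k w * den Φ c s U N w) := by
    intro x y h
    have h1 := den_meas Φ c s U N x y h
    have h2 := meas_mono Φ (lam_anti c s (le_sup_left : N ≤ N ⊔ m)) hk x y h
    simp only [h1, h2]
  have hp := hτ (N ⊔ m)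
  rw [VV_cons Φ c s hτ hmul]
  refine le_trans (E_mono Φ _ (g := fun w => k w * den Φ c s U N w) (fun w => ?_) z) ?_
  · have h2 := VV_le_one Φ c s hU hτ hmul l (m ⊓ N) w
    have h3 : 0 ≤ stepA Φ c s U τ m N w * (τ N / τ (N ⊔ m)) :=
      mul_nonneg (stepA_nonneg Φ c s U τ m N w) (div_nonneg (hτ _).le (hτ _).le)
    refine (mul_le_of_le_one_right h3 h2).trans ?_
    have h0 := den_nonneg Φ c s hU N w
    unfold stepA
    split_ifs with h
    · simp only [k, h.2, if_true, one_mul]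
      rw [div_eq_inv_mul]
      exact mul_le_mul_of_nonneg_left h.1 (inv_nonneg.2 hp.le)
    · rw [zero_mul]
      refine mul_nonneg ?_ h0
      simp only [k]
      split_ifs
      · exact inv_nonneg.2 hp.le
      · exact le_rfl
  · rw [E_lam_meas Φ c s m N hm, Φ.mul _ _ _ hk, E_den]
    simp only [k, gg, div_lt_one hp]
    split_ifs
    · rw [div_eq_inv_mul]
    · simp

theorem VV_gain [Fintype W] (hU : ∀ z, 0 ≤ U z) (T : W → (ι → ℕ) → ℝ) (hT : ∀ ω N, 0 < T ω N)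
    (hmul : ∀ ω a b, T ω (a ⊔ b) * T ω (b ⊓ a) = T ω a * T ω b) (γ : ℝ) (M : ι → ℕ)
    (hγ : ∀ x : ℝ, 0 ≤ x → ∑ ω, gg (x / T ω M) ≤ γ) :
    ∀ (l : List (ι → ℕ)) (m : ι → ℕ), M ∈ sups m l →
      ∀ z, ∑ ω, VV Φ c s U (T ω) m l z ≤ γ
  | [], m, h, _ => by simp [sups] at h
  | N :: l, m, h, z => by
    have hγ0 : 0 ≤ γ := by simpa [gg] using hγ 0 le_rfl
    rcases List.mem_cons.1 h with h | h
    · refine le_trans (sum_le_sum fun ω _ => VV_le_gg Φ c s hU (hT ω) (hmul ω) m N l z) ?_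
      rw [← h]
      exact hγ _ (den_nonneg Φ c s hU _ z)
    · have ih := VV_gain hU T hT hmul γ M hγ l (m ⊓ N) h
      have h1 : ∑ ω, VV Φ c s U (T ω) m (N :: l) z ≤ ∑ ω, Φ.E (lam c s m) (fun w =>
          den Φ c s U N w / den Φ c s U (N ⊔ m) w * VV Φ c s U (T ω) (m ⊓ N) l w) z := by
        refine sum_le_sum fun ω _ => ?_
        rw [VV_cons Φ c s (hT ω) (hmul ω)]
        exact E_mono Φ _ (fun w => mul_le_mul_of_nonneg_right
          (step_le_kap Φ c s hU (hT ω) m N w) (VV_nonneg Φ c s (hT ω) _ _ w)) z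
      rw [← E_sum] at h1
      refine h1.trans (le_trans (E_mono Φ _
        (g := fun w => γ * (den Φ c s U N w / den Φ c s U (N ⊔ m) w)) (fun w => ?_) z) ?_)
      · rw [← mul_sum, mul_comm]
        exact mul_le_mul_of_nonneg_right (ih w)
          (div_nonneg (den_nonneg Φ c s hU _ w) (den_nonneg Φ c s hU _ w))
      · rw [E_smul]
        exact mul_le_of_le_one_right hγ0 (E_kap_le Φ c s m N z)

theorem gg_geom (x : ℝ) (hx : 0 ≤ x) : ∀ K : ℕ,
    ∑ r ∈ range K, gg (x * 2 ^ r) ≤ x * 2 ^ K ∧ ∑ r ∈ range K, gg (x * 2 ^ r) ≤ 2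
  | 0 => by simpa using hx
  | K + 1 => by
    obtain ⟨h1, h2⟩ := gg_geom x hx K
    have h0 : 0 ≤ x * 2 ^ K := by positivity
    rw [sum_range_succ, pow_succ, ← mul_assoc]
    unfold gg at *
    split_ifs with h
    · constructor <;> linarith
    · constructor <;> linarith

end Chain

end

end Pool.Agent.H575Z.Stop
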