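import Pool.Agent.H575Z.StopA

set_option autoImplicit false

/-! Stopping-set decomposition: combinatorics of the box and the random thresholds. -/

namespace Pool.Agent.H575Z.Stop

open Finset Pool.Agent.H445Z.Cub

noncomputable section

section Box
variable {ι : Type} [Fintype ι] [DecidableEq ι]

theorem mem_ybox {S : Finset ι} {J : ℕ} {N : ι → ℕ} :
    N ∈ ybox S J ↔ ∀ e, (e ∈ S → N e ≤ J) ∧ (e ∉ S → N e = 0) := by
  unfold ybox
  rw [Fintype.mem_piFinset]
  refine forall_congr' fun e => ?_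
  by_cases h : e ∈ S
  · simp [h]
  · simp [h]

theorem zero_mem_ybox (S : Finset ι) (J : ℕ) : (0 : ι → ℕ) ∈ ybox S J :=
  mem_ybox.2 fun _ => ⟨fun _ => Nat.zero_le _, fun _ => rfl⟩

theorem sup_mem_ybox {S : Finset ι} {J : ℕ} {a b : ι → ℕ} (ha : a ∈ ybox S J)
    (hb : b ∈ ybox S J) : a ⊔ b ∈ ybox S J := by
  rw [mem_ybox] at *
  intro e
  have h1 := ha e
  have h2 := hb e
  refine ⟨fun h => sup_le (h1.1 h) (h2.1 h), fun h => ?_⟩
  simp [h1.2 h, h2.2 h]

theorem inf_mem_ybox {S : Finset ι} {J : ℕ} {a b : ι → ℕ} (ha : a ∈ ybox S J) :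
    a ⊓ b ∈ ybox S J := by
  rw [mem_ybox] at *
  intro e
  have h1 := ha e
  refine ⟨fun h => inf_le_left.trans (h1.1 h), fun h => ?_⟩
  simp [h1.2 h]

theorem sum_ybox_prod (S : Finset ι) (J : ℕ) (f : ι → ℕ → ℝ) :
    ∑ N ∈ ybox S J, ∏ e ∈ S, f e (N e) = ∏ e ∈ S, ∑ j ∈ range (J + 1), f e j := by
  have h := Finset.prod_univ_sum (fun e : ι => if e ∈ S then range (J + 1) else {0})
    (fun e j => if e ∈ S then f e j else 1)
  have e1 : ∀ N : ι → ℕ, ∏ e, (if e ∈ S then f e (N e) else 1) = ∏ e ∈ S, f e (N e) := by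
    intro N
    rw [← Finset.prod_filter]
    congr 1
    ext e; simp
  have e2 : ∏ e, ∑ j ∈ (if e ∈ S then range (J + 1) else {0}), (if e ∈ S then f e j else 1) =
      ∏ e, (if e ∈ S then ∑ j ∈ range (J + 1), f e j else 1) := by
    refine prod_congr rfl fun e _ => ?_
    by_cases he : e ∈ S <;> simp [he]
  rw [e2, ← Finset.prod_filter] at h
  have e3 : univ.filter (fun e => e ∈ S) = S := by ext e; simp
  rw [e3] at h
  rw [h]
  exact (sum_congr rfl fun N _ => e1 N).symm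

theorem sum_ybox_insert {S : Finset ι} {a : ι} (ha : a ∉ S) (J : ℕ) (G : (ι → ℕ) → ℝ) :
    ∑ y ∈ ybox (insert a S) J, G y =
      ∑ j ∈ range (J + 1), ∑ y ∈ ybox S J, G (y + Pi.single a j) := by
  rw [← sum_product']
  refine sum_nbij' (fun y => (y a, Function.update y a 0)) (fun p => p.2 + Pi.single a p.1)
    ?_ ?_ ?_ ?_ ?_
  · intro y hy
    rw [mem_ybox] at hy
    refine mem_product.2 ⟨mem_range.2 (Nat.lt_succ_of_le ((hy a).1 (mem_insert_self _ _))), ?_⟩
    rw [mem_ybox]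
    intro e
    by_cases he : e = a
    · subst he; simp
    · simp only [Function.update_of_ne he]
      exact ⟨fun h => (hy e).1 (mem_insert_of_mem h), fun h => (hy e).2 (by simp [he, h])⟩
  · intro p hp
    obtain ⟨h1, h2⟩ := mem_product.1 hp
    rw [mem_ybox] at h2 ⊢
    intro e
    by_cases he : e = a
    · subst he
      have := (h2 e).2 ha
      have := mem_range.1 h1
      simp
      omega
    · simp only [Pi.add_apply, Pi.single_eq_of_ne he, add_zero, mem_insert, he, false_or]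
      exact h2 e
  · intro y _
    funext e
    by_cases he : e = a
    · subst he; simp
    · simp [he]
  · intro p hp
    obtain ⟨_, h2⟩ := mem_product.1 hp
    have h0 := (mem_ybox.1 h2 a).2 ha
    refine Prod.ext (by simp [h0]) ?_
    funext e
    by_cases he : e = a
    · subst he; simp [h0]
    · simp [he]
  · intro y _
    congr 1
    funext e
    by_cases he : e = a
    · subst he; simp
    · simp [he]

omit [Fintype ι] in
/-- indicator vector -/
def ind (F : Finset ι) : ι → ℕ := fun e => if e ∈ F then 1 else 0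

omit [Fintype ι] in
/-- mixed difference -/
def Delta (S : Finset ι) (φ : (ι → ℕ) → ℝ) (y : ι → ℕ) : ℝ :=
  ∑ F ∈ S.powerset, (-1) ^ F.card * φ (y + ind F)

omit [Fintype ι] in
theorem Delta_insert {S : Finset ι} {a : ι} (ha : a ∉ S) (φ : (ι → ℕ) → ℝ) (y : ι → ℕ) :
    Delta (insert a S) φ y =
      ∑ F ∈ S.powerset, (-1) ^ F.card * (φ (y + ind F) - φ (y + Pi.single a 1 + ind F)) := by
  unfold Delta
  rw [sum_powerset_insert ha, ← sum_add_distrib]
  refine sum_congr rfl fun F hF => ?_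
  have haF : a ∉ F := fun h => ha (mem_powerset.1 hF h)
  have e : y + ind (insert a F) = y + Pi.single a 1 + ind F := by
    funext e
    by_cases he : e = a
    · subst he; simp [ind, haF]
    · simp [ind, he]
  rw [card_insert_of_notMem haF, e]
  ring

omit [Fintype ι] in
theorem abs_Delta_le (S : Finset ι) (φ : (ι → ℕ) → ℝ) (h : ∀ y, |φ y| ≤ 1) (y : ι → ℕ) :
    |Delta S φ y| ≤ 2 ^ S.card := by
  unfold Delta
  refine (abs_sum_le_sum_abs _ _).trans ?_
  calc ∑ F ∈ S.powerset, |(-1 : ℝ) ^ F.card * φ (y + ind F)| ≤ ∑ _F ∈ S.powerset, (1 : ℝ) := by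
        refine sum_le_sum fun F _ => ?_
        rw [abs_mul, abs_pow, abs_neg, abs_one, one_pow, one_mul]
        exact h _
    _ = 2 ^ S.card := by simp

theorem tele (J : ℕ) (S : Finset ι) : ∀ φ : (ι → ℕ) → ℝ,
    (∀ y, (∃ e ∈ S, J + 1 ≤ y e) → φ y = 0) → ∑ y ∈ ybox S J, Delta S φ y = φ 0 := by
  induction S using Finset.induction_on with
  | empty =>
    intro φ _
    have e : ybox (∅ : Finset ι) J = {0} := by
      ext N
      simp only [mem_ybox, mem_singleton]
      constructor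
      · intro h; funext e; exact (h e).2 (notMem_empty e)
      · rintro rfl e; simp
    have e2 : ind (∅ : Finset ι) = 0 := by funext e; simp [ind]
    simp [e, Delta, e2]
  | insert a S ha ih =>
    intro φ hφ
    have hH : ∀ j : ℕ, ∑ y ∈ ybox S J, Delta S φ (y + Pi.single a j) = φ (Pi.single a j) := by
      intro j
      have := ih (fun w => φ (w + Pi.single a j)) (fun y ⟨e, he, h⟩ =>
        hφ _ ⟨e, mem_insert_of_mem he, le_trans h (Nat.le_add_right _ _)⟩)
      simp only [zero_add] at this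
      rw [← this]
      refine sum_congr rfl fun y _ => ?_
      unfold Delta
      refine sum_congr rfl fun F _ => ?_
      rw [add_right_comm]
    rw [sum_ybox_insert ha]
    have e : ∀ j ∈ range (J + 1), ∑ y ∈ ybox S J, Delta (insert a S) φ (y + Pi.single a j) =
        φ (Pi.single a j) - φ (Pi.single a (j + 1)) := by
      intro j _
      rw [← hH j, ← hH (j + 1), ← sum_sub_distrib]
      refine sum_congr rfl fun y _ => ?_
      rw [Delta_insert ha]
      unfold Delta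
      rw [← sum_sub_distrib]
      refine sum_congr rfl fun F _ => ?_
      rw [Pi.single_add, ← add_assoc]
      ring
    rw [sum_congr rfl e, sum_range_sub' (fun j => φ (Pi.single a j))]
    rw [hφ (Pi.single a (J + 1)) ⟨a, mem_insert_self _ _, by simp⟩]
    simp

open Classical in
/-- indicator of the down-set generated by `B` -/
def phi (S : Finset ι) (J : ℕ) (B : (ι → ℕ) → Prop) (y : ι → ℕ) : ℝ :=
  if ∃ N ∈ ybox S J, y ≤ N ∧ B N then 1 else 0

theorem abs_phi_le (S : Finset ι) (J : ℕ) (B : (ι → ℕ) → Prop) (y : ι → ℕ) :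
    |phi S J B y| ≤ 1 := by
  unfold phi; split_ifs <;> simp

theorem phi_vanish (S : Finset ι) (J : ℕ) (B : (ι → ℕ) → Prop) (y : ι → ℕ)
    (h : ∃ e ∈ S, J + 1 ≤ y e) : phi S J B y = 0 := by
  obtain ⟨e, he, h⟩ := h
  unfold phi
  rw [if_neg]
  rintro ⟨N, hN, hy, _⟩
  have h1 := (mem_ybox.1 hN e).1 he
  have h2 : y e ≤ N e := hy e
  omega

theorem Delta_ne_zero (S : Finset ι) (J : ℕ) (B : (ι → ℕ) → Prop) (y : ι → ℕ)
    (h : Delta S (phi S J B) y ≠ 0) (e : ι) (he : e ∈ S) :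
    ∃ N ∈ ybox S J, y ≤ N ∧ N e = y e ∧ B N ∧ ∀ N' ∈ ybox S J, N < N' → ¬ B N' := by
  classical
  by_contra hcon
  apply h
  have e1 : Delta S (phi S J B) y = Delta (insert e (S.erase e)) (phi S J B) y := by
    rw [insert_erase he]
  rw [e1, Delta_insert (notMem_erase e S)]
  refine sum_eq_zero fun F hF => ?_
  have heF : e ∉ F := fun h => notMem_erase e S (mem_powerset.1 hF h)
  have hiff : (∃ N ∈ ybox S J, y + ind F ≤ N ∧ B N) ↔
      (∃ N ∈ ybox S J, y + Pi.single e 1 + ind F ≤ N ∧ B N) := by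
    constructor
    · rintro ⟨N, hN, hy, hB⟩
      obtain ⟨N₀, hle, hmax⟩ := ((ybox S J).filter B).exists_le_maximal (mem_filter.2 ⟨hN, hB⟩)
      obtain ⟨h1, h2⟩ := mem_filter.1 hmax.1
      have hyN : y ≤ N₀ := le_trans le_self_add (hy.trans hle)
      have hne : N₀ e ≠ y e := by
        intro h0
        refine hcon ⟨N₀, h1, hyN, h0, h2, fun N' hN' hlt hB' => ?_⟩
        exact hlt.not_ge (hmax.2 (mem_filter.2 ⟨hN', hB'⟩) hlt.le)
      refine ⟨N₀, h1, fun e' => ?_, h2⟩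
      by_cases hee : e' = e
      · subst hee
        have : y e' ≤ N₀ e' := hyN e'
        simp only [Pi.add_apply, Pi.single_eq_same, ind, heF, if_false]
        omega
      · have := (hy.trans hle) e'
        simpa [hee] using this
    · rintro ⟨N, hN, hy, hB⟩
      refine ⟨N, hN, le_trans ?_ hy, hB⟩
      rw [add_right_comm]
      exact le_self_add
  have : phi S J B (y + ind F) = phi S J B (y + Pi.single e 1 + ind F) := by
    unfold phi
    simp only [hiff]
  rw [this, sub_self, mul_zero]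

theorem exists_chain {Ω : Type} [Fintype Ω] (Φ : Filt ι Ω) (c : ℕ) (s : ι → ℕ) (U : Ω → ℝ)
    (τ : (ι → ℕ) → ℝ) (S : Finset ι) (J : ℕ) (y : ι → ℕ) (hy : y ∈ ybox S J) (z : Ω)
    (H : ∀ e ∈ S, ∃ N ∈ ybox S J, y ≤ N ∧ N e = y e ∧ τ N ≤ den Φ c s U N z ∧
      ∀ N' ∈ ybox S J, N < N' → ¬ τ N' ≤ den Φ c s U N' z) :
    ∀ (es : List ι) (m : ι → ℕ), m ∈ ybox S J → y ≤ m → (∀ e ∈ S, m e ≠ y e → e ∈ es) →
      ∃ l : List (ι → ℕ), l.length ≤ es.length ∧ (∀ N ∈ l, N ∈ ybox S J) ∧ mEnd m l = y ∧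
        prodA Φ c s U τ m l z = 1
  | [], m, hm, _, h => by
    refine ⟨[], le_rfl, by simp, ?_, rfl⟩
    funext e
    by_cases he : e ∈ S
    · by_contra hne
      simpa using h e he hne
    · rw [mEnd, (mem_ybox.1 hm e).2 he, (mem_ybox.1 hy e).2 he]
  | e :: es, m, hm, hym, h => by
    by_cases hc : e ∈ S ∧ m e ≠ y e
    · obtain ⟨N, hN, hyN, hNe, hB, hmax⟩ := H e hc.1
      obtain ⟨l, h1, h2, h3, h4⟩ := exists_chain Φ c s U τ S J y hy z H es (m ⊓ N)
        (inf_mem_ybox hm) (le_inf hym hyN) (fun e' he' hne => by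
          have a1 : y e' ≤ m e' := hym e'
          have a2 : y e' ≤ N e' := hyN e'
          simp only [Pi.inf_apply] at hne
          have hee : e' ≠ e := by
            rintro rfl
            omega
          have := h e' he' (by omega)
          simpa [hee] using this)
      refine ⟨N :: l, by simpa using h1, ?_, h3, ?_⟩
      · intro N' hN'
        rcases List.mem_cons.1 hN' with rfl | hN'
        · exact hN
        · exact h2 N' hN'
      · have hlt : N < N ⊔ m := by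
          refine lt_of_le_of_ne le_sup_left fun h0 => ?_
          have a0 := congrFun h0 e
          have a1 : y e ≤ m e := hym e
          have a2 := hc.2
          simp only [Pi.sup_apply] at a0
          omega
        have := not_le.1 (hmax _ (sup_mem_ybox hN hm) hlt)
        simp only [prodA, h4, mul_one, stepA]
        rw [if_pos ⟨hB, this⟩]
    · obtain ⟨l, h1, h2, h3, h4⟩ := exists_chain Φ c s U τ S J y hy z H es m hm hym
        (fun e' he' hne => by
          have hee : e' ≠ e := by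
            rintro rfl
            exact hc ⟨he', hne⟩
          simpa [hee] using h e' he' hne)
      exact ⟨l, h1.trans (by simp), h2, h3, h4⟩

end Box

theorem sum_update {κ : Type} [Fintype κ] [DecidableEq κ] {α : κ → Type} [∀ k, Fintype (α k)]
    (p : κ) (F : (∀ k, α k) → ℝ) :
    ∑ ω : ∀ k, α k, ∑ r : α p, F (Function.update ω p r) = Fintype.card (α p) * ∑ ω, F ω := by
  let σ : (∀ k, α k) × α p → (∀ k, α k) × α p := fun x => (Function.update x.1 p x.2, x.1 p)
  have hσ : Function.Involutive σ := by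
    intro x
    simp [σ]
  have h := Equiv.sum_comp hσ.toPerm (fun x : (∀ k, α k) × α p => F x.1)
  rw [Fintype.sum_prod_type, Fintype.sum_prod_type] at h
  simp only [Function.Involutive.coe_toPerm, σ] at h
  rw [h]
  simp [mul_sum]

section Thr
variable {ι : Type} (J i : ℕ)

/-- the space of random thresholds -/
abbrev WW (ι : Type) (J : ℕ) : Type := (p : ι × Fin J) → Fin (2 ^ (p.2 : ℕ))

/-- one dimensional thresholds -/
def th (ω : WW ι J) (e : ι) (j : ℕ) : ℝ :=
  if j = 0 then 1 else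
    if h : j < J then ((2 : ℝ) ^ (2 ^ j + (ω (e, ⟨j, h⟩) : ℕ)))⁻¹ else ((2 : ℝ) ^ i)⁻¹

/-- product thresholds -/
def tau (S : Finset ι) (ω : WW ι J) (N : ι → ℕ) : ℝ := ∏ e ∈ S, th J i ω e (N e)

theorem th_pos (ω : WW ι J) (e : ι) (j : ℕ) : 0 < th J i ω e j := by
  unfold th; split_ifs <;> positivity

theorem tau_pos (S : Finset ι) (ω : WW ι J) (N : ι → ℕ) : 0 < tau J i S ω N :=
  prod_pos fun e _ => th_pos J i ω e _

theorem tau_mul (S : Finset ι) (ω : WW ι J) (a b : ι → ℕ) :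
    tau J i S ω (a ⊔ b) * tau J i S ω (b ⊓ a) = tau J i S ω a * tau J i S ω b := by
  unfold tau
  rw [← prod_mul_distrib, ← prod_mul_distrib]
  refine prod_congr rfl fun e _ => ?_
  simp only [Pi.sup_apply, Pi.inf_apply]
  rcases le_total (a e) (b e) with h | h
  · rw [sup_eq_right.2 h, inf_eq_right.2 h, mul_comm]
  · rw [sup_eq_left.2 h, inf_eq_left.2 h]

theorem tau_zero (S : Finset ι) (ω : WW ι J) : tau J i S ω 0 = 1 := by
  simp [tau, th]

theorem tau_gain [Fintype ι] [DecidableEq ι] (S : Finset ι) (M : ι → ℕ) (e₀ : ι) (he : e₀ ∈ S)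
    (h0 : M e₀ ≠ 0) (hJ : M e₀ < J) (x : ℝ) (hx : 0 ≤ x) :
    ∑ ω : WW ι J, gg (x / tau J i S ω M) ≤ (1 / 2) ^ (M e₀ - 1) * Fintype.card (WW ι J) := by
  have h := sum_update (α := fun p : ι × Fin J => Fin (2 ^ (p.2 : ℕ))) (e₀, ⟨M e₀, hJ⟩)
    (fun ω => gg (x / tau J i S ω M))
  have hb : ∀ ω : WW ι J, ∑ r : Fin (2 ^ M e₀),
      gg (x / tau J i S (Function.update ω (e₀, ⟨M e₀, hJ⟩) r) M) ≤ 2 := by
    intro ω
    have hP : 0 < ∏ e ∈ S.erase e₀, th J i ω e (M e) := prod_pos fun e _ => th_pos J i ω e _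
    have e1 : ∀ r : Fin (2 ^ M e₀), x / tau J i S (Function.update ω (e₀, ⟨M e₀, hJ⟩) r) M =
        (x * 2 ^ 2 ^ M e₀ / ∏ e ∈ S.erase e₀, th J i ω e (M e)) * 2 ^ (r : ℕ) := by
      intro r
      have a1 : th J i (Function.update ω (e₀, ⟨M e₀, hJ⟩) r) e₀ (M e₀) =
          ((2 : ℝ) ^ (2 ^ M e₀ + (r : ℕ)))⁻¹ := by
        simp [th, h0, hJ]
      have a2 : ∏ e ∈ S.erase e₀, th J i (Function.update ω (e₀, ⟨M e₀, hJ⟩) r) e (M e) =
          ∏ e ∈ S.erase e₀, th J i ω e (M e) := by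
        refine prod_congr rfl fun e hee => ?_
        have hne : e ≠ e₀ := ne_of_mem_erase hee
        unfold th
        split_ifs with b1 b2
        · rfl
        · rw [Function.update_of_ne (by simp [hne])]
        · rfl
      unfold tau
      rw [← mul_prod_erase S _ he, a1, a2, pow_add]
      field_simp
    simp only [e1]
    rw [Fin.sum_univ_eq_sum_range (fun r : ℕ =>
      gg ((x * 2 ^ 2 ^ M e₀ / ∏ e ∈ S.erase e₀, th J i ω e (M e)) * 2 ^ r))]
    exact (gg_geom _ (by positivity) _).2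
  have h2 : (Fintype.card (Fin (2 ^ M e₀)) : ℝ) * ∑ ω : WW ι J, gg (x / tau J i S ω M) ≤
      2 * Fintype.card (WW ι J) := by
    refine h.symm.le.trans ((sum_le_sum fun ω _ => hb ω).trans ?_)
    simp [mul_comm]
  obtain ⟨k, hk⟩ : ∃ k, M e₀ = k + 1 := Nat.exists_eq_succ_of_ne_zero h0
  rw [Fintype.card_fin, hk] at h2
  rw [hk, Nat.add_sub_cancel, one_div, inv_pow, inv_mul_eq_div, le_div_iff₀ (by positivity)]
  push_cast at h2
  rw [pow_succ] at h2
  linarith

theorem th_inv_le (ω : WW ι J) (e : ι) {j : ℕ} (hj : j < J) :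
    (th J i ω e j)⁻¹ ≤ (2 : ℝ) ^ 2 ^ (j + 1) / 2 := by
  unfold th
  split_ifs with h
  · subst h; norm_num
  · rw [inv_inv, le_div_iff₀ (by norm_num), ← pow_succ]
    refine pow_le_pow_right₀ (by norm_num) ?_
    have := (ω (e, ⟨j, hj⟩)).2
    simp only at this
    rw [pow_succ]
    omega

theorem sum_tower (n : ℕ) : ∑ j ∈ range n, (2 : ℝ) ^ 2 ^ (j + 1) / 2 ≤ 2 ^ 2 ^ n := by
  induction n with
  | zero => simp
  | succ n ih =>
    rw [sum_range_succ]
    have e : (2 : ℝ) ^ 2 ^ (n + 1) = 2 ^ 2 ^ n * 2 ^ 2 ^ n := by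
      rw [← pow_add, pow_succ, mul_two]
    have h2 : (2 : ℝ) ≤ 2 ^ 2 ^ n := le_self_pow₀ (by norm_num) (by positivity)
    rw [e]
    nlinarith

theorem sum_th_inv (hJ : 1 ≤ J) (hJi : 2 ^ J ≤ i + 2) (ω : WW ι J) (e : ι) :
    ∑ j ∈ range (J + 1), (th J i ω e j)⁻¹ ≤ 6 * 2 ^ i := by
  rw [sum_range_succ]
  have h1 : ∑ j ∈ range J, (th J i ω e j)⁻¹ ≤ 2 ^ 2 ^ J :=
    (sum_le_sum fun j hj => th_inv_le J i ω e (mem_range.1 hj)).trans (sum_tower J)
  have h2 : (2 : ℝ) ^ 2 ^ J ≤ 2 ^ (i + 2) := pow_le_pow_right₀ (by norm_num) hJi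
  have h3 : (th J i ω e J)⁻¹ = 2 ^ i := by
    unfold th
    rw [if_neg (by omega), dif_neg (lt_irrefl _), inv_inv]
  have h4 : (0 : ℝ) < 2 ^ i := by positivity
  rw [h3]
  rw [pow_add] at h2
  linarith

theorem th_inv_le_aa (hiJ : i + 2 < 2 ^ (J + 1)) (ω : WW ι J) (e : ι) {j : ℕ} (hj : j ≤ J) :
    (th J i ω e j)⁻¹ ≤ aa j := by
  unfold aa
  split_ifs with h
  · subst h; simp [th]
  · rcases hj.lt_or_eq with h1 | h1
    · refine (th_inv_le J i ω e h1).trans ?_
      have : (0 : ℝ) < 2 ^ 2 ^ (j + 1) := by positivity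
      linarith
    · subst h1
      unfold th
      rw [if_neg h, dif_neg (lt_irrefl _), inv_inv]
      exact pow_le_pow_right₀ (by norm_num) (by omega)

theorem exists_depth (c k : ℕ) : ∀ n : ℕ,
    ∃ j, j ≤ n ∧ LL c j ≤ k ∧ (j < n → k < c * 2 ^ (j + 1))
  | 0 => ⟨0, le_rfl, by simp [LL], by simp⟩
  | n + 1 => by
    by_cases h : c * 2 ^ (n + 1) ≤ k
    · exact ⟨n + 1, le_rfl, by simpa [LL] using h, by simp⟩
    · obtain ⟨j, h1, h2, h3⟩ := exists_depth c k n
      refine ⟨j, h1.trans (Nat.le_succ _), h2, fun _ => ?_⟩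
      rcases h1.lt_or_eq with h4 | h4
      · exact h3 h4
      · subst h4; exact not_le.1 h

theorem th_le {ρ : ℝ} {c k j w : ℕ} (hρ : 0 < ρ) (hρ1 : ρ ≤ 1) (hc : 1 / 2 ≤ ρ ^ (2 * c))
    (hJ : 1 ≤ J) (hj : j < J → k < c * 2 ^ (j + 1)) (hjw : j ≤ w) (ω : WW ι J) (e : ι) :
    th J i ω e w ≤ ((2 : ℝ) ^ i)⁻¹ + 2 * ρ ^ k := by
  have p1 : (0 : ℝ) < ((2 : ℝ) ^ i)⁻¹ := by positivity
  have p2 : 0 < ρ ^ k := pow_pos hρ k
  by_cases hw : w < J
  · have h1 : k ≤ 2 * c * 2 ^ w := by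
      have a1 := hj (lt_of_le_of_lt hjw hw)
      have a2 : c * 2 ^ (j + 1) ≤ c * 2 ^ (w + 1) :=
        Nat.mul_le_mul_left _ (Nat.pow_le_pow_right (by norm_num) (by omega))
      have a3 : c * 2 ^ (w + 1) = 2 * c * 2 ^ w := by ring
      omega
    have h2 : (1 / 2 : ℝ) ^ 2 ^ w ≤ ρ ^ k := by
      calc (1 / 2 : ℝ) ^ 2 ^ w ≤ (ρ ^ (2 * c)) ^ 2 ^ w := pow_le_pow_left₀ (by norm_num) hc _
        _ = ρ ^ (2 * c * 2 ^ w) := by rw [← pow_mul]
        _ ≤ ρ ^ k := pow_le_pow_of_le_one hρ.le hρ1 h1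
    unfold th
    split_ifs with h0
    · subst h0
      norm_num at h2
      linarith
    · have : ((2 : ℝ) ^ (2 ^ w + (ω (e, ⟨w, hw⟩) : ℕ)))⁻¹ ≤ (1 / 2 : ℝ) ^ 2 ^ w := by
        rw [one_div, inv_pow]
        exact inv_anti₀ (by positivity) (pow_le_pow_right₀ (by norm_num) (Nat.le_add_right _ _))
      linarith
  · unfold th
    rw [if_neg (by omega), dif_neg hw]
    linarith

end Thr

end

end Pool.Agent.H575Z.Stop
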