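import Pool.Agent.H575Z.StopB

set_option autoImplicit false

/-! Stopping-set decomposition: assembly. -/

namespace Pool.Agent.H575Z.Stop

open Finset Pool.Agent.H445Z.Cub

noncomputable section

/-- exponent of the gain attached to a coordinate value -/
def bexp (J a j : ℕ) : ℕ := if j = a ∨ j = J then 0 else j - 1

theorem sum_bexp {q : ℝ} (hq0 : 0 ≤ q) (hq1 : q < 1) (J a : ℕ) :
    ∑ j ∈ range (J + 1), q ^ bexp J a j ≤ 3 + (1 - q)⁻¹ := by
  have h1 : ∀ j ∈ range (J + 1), q ^ bexp J a j ≤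
      (if j = a then 1 else 0) + (if j = J then 1 else 0) + q ^ (j - 1) := by
    intro j _
    have h0 := pow_nonneg hq0 (j - 1)
    unfold bexp
    by_cases h1 : j = a
    · rw [if_pos (Or.inl h1), if_pos h1, pow_zero]
      split_ifs <;> linarith
    · by_cases h2 : j = J
      · rw [if_pos (Or.inr h2), if_neg h1, if_pos h2, pow_zero]
        linarith
      · rw [if_neg (not_or.2 ⟨h1, h2⟩), if_neg h1, if_neg h2]
        linarith
  refine (sum_le_sum h1).trans ?_
  rw [sum_add_distrib, sum_add_distrib, sum_ite_eq', sum_ite_eq', sum_range_succ']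
  have h2 : ∑ j ∈ range J, q ^ (j + 1 - 1) ≤ (1 - q)⁻¹ := by
    simp only [Nat.add_sub_cancel]
    rw [← tsum_geometric_of_lt_one hq0 hq1]
    exact (summable_geometric_of_lt_one hq0 hq1).sum_le_tsum _ fun j _ => pow_nonneg hq0 j
  have h3 : (if a ∈ range (J + 1) then (1 : ℝ) else 0) ≤ 1 := by split_ifs <;> norm_num
  have h4 : (if J ∈ range (J + 1) then (1 : ℝ) else 0) ≤ 1 := by split_ifs <;> norm_num
  simp only [Nat.zero_sub, pow_zero]
  linarith

section Main
variable {ι Ω : Type} [Fintype ι] [DecidableEq ι] [Fintype Ω] (Φ : Filt ι Ω) (S : Finset ι)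
  (c i J : ℕ) (s : ι → ℕ) {U : Ω → ℝ}

theorem avg_VV (hU : ∀ z, 0 ≤ U z) {d n : ℕ} (hS : S.card ≤ d) (hn : n ≤ d) {q : ℝ}
    (hq0 : 0 ≤ q) (hq1 : q ≤ 1) (hq : 1 / 2 ≤ q ^ (d * d)) (y v : ι → ℕ) (f : Fin n → ι → ℕ)
    (hf : ∀ k, f k ∈ ybox S J) (hend : mEnd v (List.ofFn f) = y) (z : Ω) :
    ∑ ω : WW ι J, VV Φ c s U (tau J i S ω) v (List.ofFn f) z ≤
      Fintype.card (WW ι J) * ∏ k, ∏ e ∈ S, q ^ bexp J (y e) (f k e) := by
  let P : ℕ → Prop := fun x => ∑ ω : WW ι J, VV Φ c s U (tau J i S ω) v (List.ofFn f) z ≤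
    (1 / 2) ^ x * Fintype.card (WW ι J)
  have P0 : P 0 := by
    simp only [P, pow_zero, one_mul]
    refine (sum_le_sum fun ω _ =>
      VV_le_one Φ c s hU (tau_pos J i S ω) (tau_mul J i S ω) _ v z).trans ?_
    simp
  have P1 : ∀ p ∈ (univ : Finset (Fin n)) ×ˢ S, P (bexp J (y p.2) (f p.1 p.2)) := by
    rintro ⟨k, e⟩ hp
    have he : e ∈ S := (mem_product.1 hp).2
    unfold bexp
    split_ifs with h
    · exact P0
    · simp only [not_or] at h
      by_cases h0 : f k e = 0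
      · simp only [h0]; exact P0
      · have hle := (mem_ybox.1 (hf k) e).1 he
        obtain ⟨M, hM, hMe⟩ := (sups_coord e (List.ofFn f) v).1 (f k)
          (List.mem_ofFn.2 ⟨k, rfl⟩) (by rw [hend]; exact h.1)
        have hg := tau_gain J i S M e he (by omega) (by omega)
        rw [hMe] at hg
        exact VV_gain Φ c s hU (tau J i S) (tau_pos J i S) (tau_mul J i S) _ M hg _ v hM z
  set X := ((univ : Finset (Fin n)) ×ˢ S).sup (fun p => bexp J (y p.2) (f p.1 p.2)) with hX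
  have PX : P X := by
    refine Finset.sup_induction (p := P) P0 (fun a ha b hb => ?_) P1
    rcases le_total a b with h | h
    · rw [sup_eq_right.2 h]; exact hb
    · rw [sup_eq_left.2 h]; exact ha
  refine le_trans PX ?_
  rw [mul_comm]
  refine mul_le_mul_of_nonneg_left ?_ (Nat.cast_nonneg _)
  calc (1 / 2 : ℝ) ^ X ≤ (q ^ (d * d)) ^ X := pow_le_pow_left₀ (by norm_num) hq X
    _ = q ^ (d * d * X) := by rw [← pow_mul]
    _ ≤ q ^ (X * S.card * n) := by
        refine pow_le_pow_of_le_one hq0 hq1 ?_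
        calc X * S.card * n ≤ X * d * d := Nat.mul_le_mul (Nat.mul_le_mul_left _ hS) hn
          _ = d * d * X := by ring
    _ = ∏ _k : Fin n, ∏ _e ∈ S, q ^ X := by simp [pow_mul]
    _ ≤ _ := by
        refine prod_le_prod (fun k _ => prod_nonneg fun e _ => pow_nonneg hq0 _) fun k _ => ?_
        refine prod_le_prod (fun e _ => pow_nonneg hq0 _) fun e he => ?_
        refine pow_le_pow_of_le_one hq0 hq1 ?_
        exact Finset.le_sup (f := fun p : Fin n × ι => bexp J (y p.2) (f p.1 p.2))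
          (b := (k, e)) (mem_product.2 ⟨mem_univ _, he⟩)

variable (U)

open Classical in
/-- chains of length `n` from `v` to `y` -/
def good (y v : ι → ℕ) (n : ℕ) : Finset (Fin n → ι → ℕ) :=
  (Fintype.piFinset fun _ : Fin n => ybox S J).filter fun f => mEnd v (List.ofFn f) = y

/-- sum over all chains -/
def GG (d : ℕ) (y v : ι → ℕ) (ω : WW ι J) (w : Ω) : ℝ :=
  ∑ n ∈ range (d + 1), ∑ f ∈ good S J y v n, prodA Φ c s U (tau J i S ω) v (List.ofFn f) w

/-- the pieces for a fixed choice of thresholds -/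
def Xo (ω : WW ι J) (y : ι → ℕ) (z : Ω) : ℝ :=
  Delta S (phi S J fun N => tau J i S ω N ≤ den Φ c s U N z) y

theorem abs_Xo_le (ω : WW ι J) (y : ι → ℕ) (z : Ω) : |Xo Φ S c i J s U ω y z| ≤ 2 ^ S.card :=
  abs_Delta_le S _ (abs_phi_le S J _) y

theorem Xo_le_GG {d : ℕ} (hS : S.card ≤ d) {y v : ι → ℕ} (hy : y ∈ ybox S J)
    (hv : v ∈ ybox S J) (hyv : y ≤ v) (ω : WW ι J) (w : Ω) :
    |Xo Φ S c i J s U ω y w| ≤ 2 ^ d * GG Φ S c i J s U d y v ω w := by
  have hnn : ∀ n ∈ range (d + 1), 0 ≤ ∑ f ∈ good S J y v n,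
      prodA Φ c s U (tau J i S ω) v (List.ofFn f) w :=
    fun n _ => sum_nonneg fun f _ => prodA_nonneg Φ c s U _ _ _ _
  by_cases h0 : Xo Φ S c i J s U ω y w = 0
  · rw [h0, abs_zero]
    exact mul_nonneg (by positivity) (sum_nonneg hnn)
  · obtain ⟨l, h1, h2, h3, h4⟩ := exists_chain Φ c s U (tau J i S ω) S J y hy w
      (Delta_ne_zero S J _ y h0) S.toList v hv hyv (fun e he _ => mem_toList.2 he)
    rw [length_toList] at h1
    have hmem : l.get ∈ good S J y v l.length := by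
      unfold good
      refine mem_filter.2 ⟨Fintype.mem_piFinset.2 fun k => h2 _ (List.get_mem l k), ?_⟩
      rw [List.ofFn_get, h3]
    have h5 : (1 : ℝ) ≤ GG Φ S c i J s U d y v ω w := by
      refine le_trans ?_ (single_le_sum hnn (mem_range.2 (by omega : l.length < d + 1)))
      refine le_trans ?_ (single_le_sum (f := fun f : Fin l.length → ι → ℕ =>
        prodA Φ c s U (tau J i S ω) v (List.ofFn f) w)
        (fun f _ => prodA_nonneg Φ c s U _ _ _ _) hmem)
      rw [List.ofFn_get, h4]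
    refine (abs_Xo_le Φ S c i J s U ω y w).trans ?_
    have h6 : (2 : ℝ) ^ S.card ≤ 2 ^ d := pow_le_pow_right₀ (by norm_num) hS
    exact h6.trans (le_mul_of_one_le_right (by positivity) h5)

variable {U}

theorem sum_E_GG (hU : ∀ z, 0 ≤ U z) {d : ℕ} (hS : S.card ≤ d) {q : ℝ}
    (hq0 : 0 ≤ q) (hq1 : q < 1) (hq : 1 / 2 ≤ q ^ (d * d)) (y v : ι → ℕ) {R : ℝ} (hR0 : 0 ≤ R)
    (hR : ∀ ω : WW ι J, tau J i S ω v / tau J i S ω y ≤ R) (z : Ω) :
    ∑ ω : WW ι J, Φ.E (lam c s v) (GG Φ S c i J s U d y v ω) z ≤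
      R * Fintype.card (WW ι J) * ∑ n ∈ range (d + 1), ((3 + (1 - q)⁻¹) ^ d) ^ n := by
  have hK : (1 : ℝ) ≤ 3 + (1 - q)⁻¹ := by
    have : 0 ≤ (1 - q)⁻¹ := inv_nonneg.2 (by linarith)
    linarith
  have e1 : ∀ ω : WW ι J, Φ.E (lam c s v) (GG Φ S c i J s U d y v ω) z ≤
      ∑ n ∈ range (d + 1), ∑ f ∈ good S J y v n,
        R * VV Φ c s U (tau J i S ω) v (List.ofFn f) z := by
    intro ω
    unfold GG
    rw [E_sum]
    refine sum_le_sum fun n _ => ?_
    rw [E_sum]
    refine sum_le_sum fun f hf => ?_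
    have hend : mEnd v (List.ofFn f) = y := by
      unfold good at hf
      exact (mem_filter.1 hf).2
    have a1 := tau_pos J i S ω v
    have a2 := tau_pos J i S ω y
    have a3 := VV_nonneg Φ c s (U := U) (tau_pos J i S ω) v (List.ofFn f) z
    refine le_trans (le_of_eq ?_) (mul_le_mul_of_nonneg_right (hR ω) a3)
    unfold VV
    rw [hend]
    field_simp
  refine (sum_le_sum fun ω _ => e1 ω).trans ?_
  rw [sum_comm, mul_sum]
  refine sum_le_sum fun n hn => ?_
  rw [sum_comm]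
  have hn' : n ≤ d := Nat.lt_succ_iff.1 (mem_range.1 hn)
  have e2 : ∀ f ∈ good S J y v n,
      ∑ ω : WW ι J, R * VV Φ c s U (tau J i S ω) v (List.ofFn f) z ≤
        R * Fintype.card (WW ι J) * ∏ k, ∏ e ∈ S, q ^ bexp J (y e) (f k e) := by
    intro f hf
    unfold good at hf
    obtain ⟨h1, h2⟩ := mem_filter.1 hf
    rw [← mul_sum, mul_assoc]
    exact mul_le_mul_of_nonneg_left
      (avg_VV Φ S c i J s hU hS hn' hq0 hq1.le hq y v f (Fintype.mem_piFinset.1 h1) h2 z) hR0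
  refine (sum_le_sum e2).trans ?_
  rw [← mul_sum]
  refine mul_le_mul_of_nonneg_left ?_ (mul_nonneg hR0 (Nat.cast_nonneg _))
  have e3 : ∑ f ∈ good S J y v n, ∏ k, ∏ e ∈ S, q ^ bexp J (y e) (f k e) ≤
      ∑ f ∈ Fintype.piFinset (fun _ : Fin n => ybox S J),
        ∏ k, ∏ e ∈ S, q ^ bexp J (y e) (f k e) := by
    unfold good
    exact sum_le_sum_of_subset_of_nonneg (filter_subset _ _) fun f _ _ =>
      prod_nonneg fun k _ => prod_nonneg fun e _ => pow_nonneg hq0 _
  refine e3.trans ?_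
  rw [← Finset.prod_univ_sum (fun _ : Fin n => ybox S J)
    (fun _ N => ∏ e ∈ S, q ^ bexp J (y e) (N e))]
  rw [sum_ybox_prod S J (fun e j => q ^ bexp J (y e) j), prod_const, card_univ, Fintype.card_fin]
  refine pow_le_pow_left₀ (prod_nonneg fun e _ => sum_nonneg fun j _ => pow_nonneg hq0 _) ?_ n
  calc ∏ e ∈ S, ∑ j ∈ range (J + 1), q ^ bexp J (y e) j ≤ ∏ _e ∈ S, (3 + (1 - q)⁻¹) :=
        prod_le_prod (fun e _ => sum_nonneg fun j _ => pow_nonneg hq0 _)
          fun e _ => sum_bexp hq0 hq1 J (y e)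
    _ = (3 + (1 - q)⁻¹) ^ S.card := by rw [prod_const]
    _ ≤ _ := pow_le_pow_right₀ hK hS

theorem phi_zero_le (hU : ∀ z, 0 ≤ U z) (ω : WW ι J) (z : Ω) :
    phi S J (fun N => tau J i S ω N ≤ den Φ c s U N z) 0 ≤
      ∑ N ∈ ybox S J, (tau J i S ω N)⁻¹ * den Φ c s U N z := by
  have hnn : ∀ N ∈ ybox S J, 0 ≤ (tau J i S ω N)⁻¹ * den Φ c s U N z := fun N _ =>
    mul_nonneg (inv_nonneg.2 (tau_pos J i S ω N).le) (den_nonneg Φ c s hU N z)
  unfold phi
  split_ifs with h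
  · obtain ⟨N, hN, _, hB⟩ := h
    refine le_trans ?_ (single_le_sum hnn hN)
    rw [← div_eq_inv_mul, one_le_div (tau_pos J i S ω N)]
    exact hB
  · exact sum_nonneg hnn

end Main

theorem thm_stop : S_stop := by
  intro d
  set q : ℝ := 1 - 1 / (2 * ((d * d : ℕ) + 1 : ℝ)) with hqdef
  have hdd : (0 : ℝ) ≤ ((d * d : ℕ) : ℝ) := Nat.cast_nonneg _
  have hδ0 : (0 : ℝ) < 1 / (2 * ((d * d : ℕ) + 1 : ℝ)) := by positivity
  have hδ1 : 1 / (2 * ((d * d : ℕ) + 1 : ℝ)) ≤ 1 / 2 :=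
    one_div_le_one_div_of_le (by norm_num) (by linarith)
  have hq0 : 0 ≤ q := by linarith
  have hq1 : q < 1 := by linarith
  have hq : 1 / 2 ≤ q ^ (d * d) := by
    have h1 := one_add_mul_le_pow (a := -(1 / (2 * ((d * d : ℕ) + 1 : ℝ)))) (by linarith) (d * d)
    have h2 : ((d * d : ℕ) : ℝ) * (1 / (2 * ((d * d : ℕ) + 1 : ℝ))) ≤ 1 / 2 := by
      rw [mul_one_div, div_le_div_iff₀ (by positivity) (by norm_num)]
      linarith
    rw [← sub_eq_add_neg] at h1
    linarith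
  have hK : (0 : ℝ) < 3 + (1 - q)⁻¹ := by
    have : 0 ≤ (1 - q)⁻¹ := inv_nonneg.2 (by linarith)
    linarith
  set K : ℝ := ∑ n ∈ range (d + 1), ((3 + (1 - q)⁻¹) ^ d) ^ n with hKdef
  have hKpos : 0 < K := sum_pos (fun n _ => by positivity) (by simp)
  refine ⟨2 ^ d * K, by positivity, ?_⟩
  intro ι Ω _ _ _ hd Φ S c i ρ s U hρ hρ1 hρc hU01 hUm
  set J := Nat.log 2 (i + 2) with hJdef
  have hJ1 : 1 ≤ J := Nat.le_log_of_pow_le (by norm_num) (by omega)
  have hJi : 2 ^ J ≤ i + 2 := Nat.pow_log_le_self 2 (by omega)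
  have hiJ : i + 2 < 2 ^ (J + 1) := Nat.lt_pow_succ_log_self (by norm_num) _
  have hU : ∀ z, 0 ≤ U z := fun z => by rcases hU01 z with h | h <;> simp [h]
  have hS : S.card ≤ d := hd ▸ card_le_univ S
  have : Nonempty (WW ι J) := ⟨fun p => ⟨0, by positivity⟩⟩
  have hW : (0 : ℝ) < Fintype.card (WW ι J) := by exact_mod_cast Fintype.card_pos
  have hsum : ∀ z, ∑ y ∈ ybox S J, (Fintype.card (WW ι J) : ℝ)⁻¹ *
      ∑ ω : WW ι J, Xo Φ S c i J s U ω y z = (Fintype.card (WW ι J) : ℝ)⁻¹ *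
        ∑ ω : WW ι J, phi S J (fun N => tau J i S ω N ≤ den Φ c s U N z) 0 := by
    intro z
    rw [← mul_sum, sum_comm]
    congr 1
    exact sum_congr rfl fun ω _ => tele J S _ (phi_vanish S J _)
  have hmeas : ∀ y, Φ.Meas (lam c s y) (fun z => (Fintype.card (WW ι J) : ℝ)⁻¹ *
      ∑ ω : WW ι J, Xo Φ S c i J s U ω y z) := by
    intro y z z' h
    have : ∀ ω : WW ι J, Xo Φ S c i J s U ω y z = Xo Φ S c i J s U ω y z' := by
      intro ω
      unfold Xo Delta
      refine sum_congr rfl fun F _ => ?_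
      congr 1
      have hiff : (∃ N ∈ ybox S J, y + ind F ≤ N ∧ tau J i S ω N ≤ den Φ c s U N z) ↔
          (∃ N ∈ ybox S J, y + ind F ≤ N ∧ tau J i S ω N ≤ den Φ c s U N z') := by
        refine exists_congr fun N => and_congr_right fun _ => and_congr_right fun hN => ?_
        rw [meas_mono Φ (lam_anti c s (le_trans le_self_add hN)) (den_meas Φ c s U N) z z' h]
      unfold phi
      by_cases h1 : ∃ N ∈ ybox S J, y + ind F ≤ N ∧ tau J i S ω N ≤ den Φ c s U N z
      · rw [if_pos h1, if_pos (hiff.1 h1)]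
      · rw [if_neg h1, if_neg (fun h2 => h1 (hiff.2 h2))]
    simp only [this]
  refine ⟨fun y z => (Fintype.card (WW ι J) : ℝ)⁻¹ * ∑ ω : WW ι J, Xo Φ S c i J s U ω y z,
    ?_, ?_, hmeas, ?_, ?_⟩
  · intro z hz
    rw [hsum]
    have : ∀ ω : WW ι J, phi S J (fun N => tau J i S ω N ≤ den Φ c s U N z) 0 = 1 := by
      intro ω
      unfold phi
      rw [if_pos]
      refine ⟨0, zero_mem_ybox S J, le_rfl, ?_⟩
      have e : lam c s 0 = s := by funext e; simp [lam, LL]
      show tau J i S ω 0 ≤ den Φ c s U 0 z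
      rw [tau_zero, den, e, E_of_meas Φ s hUm, hz]
    simp only [this, sum_const, card_univ, nsmul_eq_mul, mul_one]
    exact inv_mul_cancel₀ hW.ne'
  · simp only [hsum]
    rw [← mul_sum, sum_comm, inv_mul_le_iff₀ hW]
    have : ∀ ω : WW ι J, ∑ z, phi S J (fun N => tau J i S ω N ≤ den Φ c s U N z) 0 ≤
        (6 * 2 ^ i) ^ S.card * ∑ z, U z := by
      intro ω
      refine (sum_le_sum fun z _ => phi_zero_le Φ S c i J s hU ω z).trans ?_
      rw [sum_comm]
      have e : ∀ N ∈ ybox S J, ∑ z, (tau J i S ω N)⁻¹ * den Φ c s U N z =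
          (∏ e ∈ S, (th J i ω e (N e))⁻¹) * ∑ z, U z := by
        intro N _
        rw [← mul_sum, den, Φ.total, tau, prod_inv_distrib]
      rw [sum_congr rfl e, ← sum_mul, sum_ybox_prod S J (fun e j => (th J i ω e j)⁻¹)]
      refine mul_le_mul_of_nonneg_right ?_ (sum_nonneg fun z _ => hU z)
      rw [← prod_const]
      exact prod_le_prod (fun e _ => sum_nonneg fun j _ => inv_nonneg.2 (th_pos J i ω e j).le)
        fun e _ => sum_th_inv J i hJ1 hJi ω e
    refine (sum_le_sum fun ω _ => this ω).trans ?_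
    simp
  · intro y z
    rw [abs_mul, abs_of_pos (inv_pos.2 hW), inv_mul_le_iff₀ hW]
    refine (abs_sum_le_sum_abs _ _).trans
      ((sum_le_sum fun ω _ => abs_Xo_le Φ S c i J s U ω y z).trans ?_)
    simp
  · intro y hy t ht z
    choose j hj1 hj2 hj3 using fun e => exists_depth c (s e - t e) J
    let v : ι → ℕ := fun e => if e ∈ S then y e ⊔ j e else 0
    have hv : v ∈ ybox S J := mem_ybox.2 fun e =>
      ⟨fun he => by simpa [v, he] using ⟨(mem_ybox.1 hy e).1 he, hj1 e⟩, fun he => by simp [v, he]⟩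
    have hyv : y ≤ v := fun e => by
      by_cases he : e ∈ S
      · simp [v, he]
      · simp [(mem_ybox.1 hy e).2 he]
    have hle : t ⊓ lam c s y ≤ lam c s v := fun e => by
      by_cases he : e ∈ S
      · have a1 := hj2 e
        have a2 := ht e he
        simp only [Pi.inf_apply, lam, v, he, if_true]
        rcases le_total (y e) (j e) with h | h
        · rw [sup_eq_right.2 h]; omega
        · rw [sup_eq_left.2 h]; omega
      · simp [lam, v, he, (mem_ybox.1 hy e).2 he]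
    set R : ℝ := (∏ e ∈ S, aa (y e)) * ∏ e ∈ S, (((2 : ℝ) ^ i)⁻¹ + 2 * ρ ^ (s e - t e)) with hRdef
    have hR : ∀ ω : WW ι J, tau J i S ω v / tau J i S ω y ≤ R := by
      intro ω
      rw [hRdef, ← prod_mul_distrib, tau, tau, ← prod_div_distrib]
      refine prod_le_prod (fun e _ => div_nonneg (th_pos J i ω e _).le (th_pos J i ω e _).le)
        fun e he => ?_
      rw [div_eq_inv_mul]
      have b1 := th_inv_le_aa J i hiJ ω e ((mem_ybox.1 hy e).1 he)
      have b2 := th_le J i hρ hρ1 hρc hJ1 (hj3 e) (w := v e) (by simp [v, he]) ω e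
      exact mul_le_mul b1 b2 (th_pos J i ω e _).le ((inv_pos.2 (th_pos J i ω e _)).le.trans b1)
    have hR0 : 0 ≤ R := le_trans
      (div_nonneg (tau_pos J i S (Classical.arbitrary _) v).le (tau_pos J i S _ y).le) (hR _)
    have habs : Φ.Meas (lam c s y) (fun w => |(Fintype.card (WW ι J) : ℝ)⁻¹ *
        ∑ ω : WW ι J, Xo Φ S c i J s U ω y w|) := by
      intro x x' h
      have := hmeas y x x' h
      simp only at this ⊢
      rw [this]
    have hE : Φ.E t (fun w => |(Fintype.card (WW ι J) : ℝ)⁻¹ *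
        ∑ ω : WW ι J, Xo Φ S c i J s U ω y w|) = Φ.E (t ⊓ lam c s y) (Φ.E (lam c s v)
          (fun w => |(Fintype.card (WW ι J) : ℝ)⁻¹ * ∑ ω : WW ι J, Xo Φ S c i J s U ω y w|)) := by
      rw [Φ.comp, inf_eq_left.2 hle, ← Φ.comp, E_of_meas Φ _ habs]
    rw [hE, mul_assoc (2 ^ d * K), ← hRdef]
    refine le_trans (E_mono Φ _ (g := fun _ => 2 ^ d * K * R) (fun x => ?_) z) (E_const Φ _ _ z).le
    refine le_trans (E_mono Φ _ (g := fun w => ((Fintype.card (WW ι J) : ℝ)⁻¹ * 2 ^ d) *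
      ∑ ω : WW ι J, GG Φ S c i J s U d y v ω w) (fun w => ?_) x) ?_
    · rw [abs_mul, abs_of_pos (inv_pos.2 hW), mul_assoc]
      refine mul_le_mul_of_nonneg_left ?_ (inv_pos.2 hW).le
      rw [mul_sum]
      exact (abs_sum_le_sum_abs _ _).trans
        (sum_le_sum fun ω _ => Xo_le_GG Φ S c i J s U hS hy hv hyv ω w)
    · rw [E_smul, E_sum]
      have := sum_E_GG Φ S c i J s hU hS hq0 hq1 hq y v hR0 hR x
      refine (mul_le_mul_of_nonneg_left this (by positivity)).trans (le_of_eq ?_)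
      rw [← hKdef]
      field_simp

end

end Pool.Agent.H575Z.Stop
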